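import Pool.Agent.Helper3.FOB.Main4
import Pool.Agent.Helper3.FOB.Small

/-!
Free Burnside groups of every rank and of exponent at most four have a presentation by relations
`v ^ n = 1` in which every `v` has order exactly `n`.
-/

namespace Pool.Agent.Results.MP_3a4fb1_al.SmallExponents

open Pool.Agent.Helper3.FOB

universe u

/-- If every homomorphism killing the `n`-th powers of the words of full order kills all `n`-th
powers, then the words of full order give a full-order presentation. -/
theorem presentation_of_hom {X : Type u} {n : ℕ}
    (h : ∀ (G : Type u) [Group G] (f : FreeGroup X →* G),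
      (∀ w, FullOrder X n w → (f w) ^ n = 1) → ∀ w, (f w) ^ n = 1) :
    ∃ V : Set (FreeGroup X), IsFullOrderPresentation X n V := by
  refine ⟨{v | FullOrder X n v}, ?_, fun v hv => hv⟩
  apply le_antisymm
  · apply Subgroup.normalClosure_le_normal
    rintro g ⟨v, -, rfl⟩
    exact pow_mem_powSubgroup v
  · unfold powSubgroup
    rw [Subgroup.closure_le]
    rintro g ⟨w, rfl⟩
    let N : Subgroup (FreeGroup X) :=
      Subgroup.normalClosure {g | ∃ v ∈ {v | FullOrder X n v}, g = v ^ n}
    have hN : N.Normal := Subgroup.normalClosure_normal
    have key : ∀ w, (QuotientGroup.mk' N w) ^ n = 1 := by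
      apply h
      intro v hv
      rw [← map_pow]
      apply (QuotientGroup.eq_one_iff (N := N) (v ^ n)).mpr
      exact Subgroup.subset_normalClosure ⟨v, hv, rfl⟩
    have := key w
    rw [← map_pow] at this
    exact (QuotientGroup.eq_one_iff (N := N) (w ^ n)).mp this

/-- For every nonempty type `X` (every nonzero rank, finite or infinite) and every exponent
`1 ≤ n ≤ 4`, the free Burnside group `B(X, n)` has a full-order presentation. -/
theorem result : ∀ (X : Type u) [Nonempty X] (n : ℕ), 1 ≤ n → n ≤ 4 →
    ∃ V : Set (FreeGroup X), IsFullOrderPresentation X n V := by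
  intro X _ n h1 h4
  apply presentation_of_hom
  intro G _ f hf
  interval_cases n
  · intro w
    apply hf
    intro d hd hd1
    rw [Nat.dvd_one] at hd
    exact absurd hd hd1
  · exact main2 f (fun w hw => hf w ((fullOrder_prime_iff Nat.prime_two w).mpr hw))
  · exact main3 f (fun w hw => hf w ((fullOrder_prime_iff Nat.prime_three w).mpr hw))
  · exact main4 f (fun w hw => hf w ((fullOrder_four_iff w).mpr hw))

end Pool.Agent.Results.MP_3a4fb1_al.SmallExponents
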